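import Pool.Agent.K7.H87.FJ2.Gen
import Pool.Agent.R684.FP.Main

/-!
# The case of a field
-/

set_option autoImplicit false

namespace Pool.Agent.K7.H87.FJ2

open Polynomial Matrix Pool.Agent.Y110.FJ Pool.Agent.R684.FP
open Pool.Agent.R941.FJ (C_equiv C_le C_cyc)
open scoped commutatorElement

/-- a subgroup generated by an abelian subgroup `A` and an element that normalizes `A` is solvable -/
theorem solv_sup {G : Type} [Group G] (A : Subgroup G) (hA : ∀ x ∈ A, ∀ y ∈ A, x * y = y * x) (g : G)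
    (hg : ∀ x, x ∈ A ↔ g * x * g⁻¹ ∈ A) : Group.IsSolvable ↥(A ⊔ Subgroup.zpowers g) := by
  have hg' : ∀ x ∈ A, g⁻¹ * x * g ∈ A := by
    intro x hx
    rw [hg]
    have : g * (g⁻¹ * x * g) * g⁻¹ = x := by group
    rwa [this]
  have hz : ∀ (n : ℤ) (x : G), x ∈ A → g ^ n * x * g ^ (-n) ∈ A := by
    intro n
    induction n with
    | zero => intro x hx; simpa using hx
    | succ n ih =>
      intro x hx
      have h1 := (hg _).1 (ih x hx)
      have h2 : g * (g ^ (n : ℤ) * x * g ^ (-(n : ℤ))) * g⁻¹ =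
          g ^ ((n : ℤ) + 1) * x * g ^ (-((n : ℤ) + 1)) := by group
      rwa [h2] at h1
    | pred n ih =>
      intro x hx
      have h1 := hg' _ (ih x hx)
      have h2 : g⁻¹ * (g ^ (-(n : ℤ)) * x * g ^ (-(-(n : ℤ)))) * g =
          g ^ (-(n : ℤ) - 1) * x * g ^ (-(-(n : ℤ) - 1)) := by group
      rwa [h2] at h1
  let L : Subgroup G :=
    { carrier := {x | ∃ a ∈ A, ∃ n : ℤ, x = a * g ^ n}
      one_mem' := ⟨1, one_mem _, 0, by simp⟩
      mul_mem' := by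
        rintro _ _ ⟨a, ha, n, rfl⟩ ⟨b, hb, m, rfl⟩
        refine ⟨a * (g ^ n * b * g ^ (-n)), mul_mem ha (hz n b hb), n + m, ?_⟩
        group
      inv_mem' := by
        rintro _ ⟨a, ha, n, rfl⟩
        refine ⟨g ^ (-n) * a⁻¹ * g ^ (-(-n)), hz (-n) _ (inv_mem ha), -n, ?_⟩
        group }
  have hL : A ⊔ Subgroup.zpowers g ≤ L := by
    rw [sup_le_iff, Subgroup.zpowers_le]
    exact ⟨fun a ha => ⟨a, ha, 0, by simp⟩, ⟨1, one_mem _, 1, by simp⟩⟩
  have hcom : ∀ x ∈ A ⊔ Subgroup.zpowers g, ∀ y ∈ A ⊔ Subgroup.zpowers g, ⁅x, y⁆ ∈ A := by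
    intro x hx y hy
    obtain ⟨a, ha, n, rfl⟩ := hL hx
    obtain ⟨b, hb, m, rfl⟩ := hL hy
    have h1 : ⁅a * g ^ n, b * g ^ m⁆ =
        a * (g ^ n * b * g ^ (-n)) * (g ^ m * a⁻¹ * g ^ (-m)) * b⁻¹ := by
      rw [commutatorElement_def]
      group
    rw [h1]
    exact mul_mem (mul_mem (mul_mem ha (hz n b hb)) (hz m _ (inv_mem ha))) (inv_mem hb)
  refine ⟨⟨2, ?_⟩⟩
  rw [derivedSeries_succ, derivedSeries_succ, derivedSeries_zero, eq_bot_iff,
    Subgroup.commutator_le]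
  have h1 : ⁅(⊤ : Subgroup ↥(A ⊔ Subgroup.zpowers g)), ⊤⁆ ≤
      A.subgroupOf (A ⊔ Subgroup.zpowers g) := by
    rw [Subgroup.commutator_le]
    intro x _ y _
    exact hcom x x.2 y y.2
  intro x hx y hy
  have hx' : (x : G) ∈ A := h1 hx
  have hy' : (y : G) ∈ A := h1 hy
  rw [Subgroup.mem_bot, commutatorElement_eq_one_iff_mul_comm]
  exact Subtype.ext (hA _ hx' _ hy')

/-- the group of the pairs `(g, h)` with `g(0) = ρ h` -/
noncomputable def Fib {A H : Type} [CommRing A] [Group H] (ρ : H →* GL (Fin 2) A) :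
    Subgroup (GL (Fin 2) A[X] × H) where
  carrier := {p | red p.1 = ρ p.2}
  one_mem' := by simp
  mul_mem' := by
    intro p q hp hq
    show red (p.1 * q.1) = ρ (p.2 * q.2)
    rw [map_mul, map_mul, hp, hq]
  inv_mem' := by
    intro p hp
    show red p.1⁻¹ = ρ p.2⁻¹
    rw [map_inv, map_inv, hp]

theorem mem_Fib {A H : Type} [CommRing A] [Group H] {ρ : H →* GL (Fin 2) A}
    {p : GL (Fin 2) A[X] × H} : p ∈ Fib ρ ↔ red p.1 = ρ p.2 := Iff.rfl

/-- the projection to `H` -/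
noncomputable def pH {A H : Type} [CommRing A] [Group H] (ρ : H →* GL (Fin 2) A) : Fib ρ →* H :=
  (MonoidHom.snd _ _).comp (Fib ρ).subtype

/-- the projection to the matrices -/
noncomputable def pG {A H : Type} [CommRing A] [Group H] (ρ : H →* GL (Fin 2) A) :
    Fib ρ →* GL (Fin 2) A[X] :=
  (MonoidHom.fst _ _).comp (Fib ρ).subtype

theorem pH_surj {A H : Type} [CommRing A] [Group H] (ρ : H →* GL (Fin 2) A) :
    Function.Surjective (pH ρ) := fun h => ⟨⟨(cst (ρ h), h), by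
      rw [mem_Fib]
      exact red_cst _⟩, rfl⟩

section field

variable {F H : Type} [Field F] [Group H] (ρ : H →* GL (Fin 2) F)

/-- the factor of the free product -/
noncomputable def Ax (x : Option F) : Subgroup (Fib ρ) where
  carrier := {p | pH ρ p = 1 ∧ ∃ f : F[X], X ∣ f ∧ pG ρ p = TU (cvec (vec x)) f}
  one_mem' := ⟨map_one _, 0, dvd_zero _, by rw [TU_zero, map_one]⟩
  mul_mem' := by
    rintro p q ⟨h1, f, hf, h2⟩ ⟨k1, g, hg, k2⟩
    exact ⟨by rw [map_mul, h1, k1, one_mul], f + g, dvd_add hf hg, by rw [map_mul, h2, k2, TU_mul]⟩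
  inv_mem' := by
    rintro p ⟨h1, f, hf, h2⟩
    exact ⟨by rw [map_inv, h1, inv_one], -f, hf.neg_right, by rw [map_inv, h2, TU_inv]⟩

theorem pair_ext {p q : Fib ρ} (h1 : pG ρ p = pG ρ q) (h2 : pH ρ p = pH ρ q) : p = q :=
  Subtype.ext (Prod.ext h1 h2)

theorem Ax_isFreeProd : IsFreeProd (pH ρ).ker (Ax ρ) := by
  have hle : ⨆ x, Ax ρ x ≤ (pH ρ).ker := iSup_le fun x p hp => hp.1
  refine ⟨le_antisymm hle ?_, ?_⟩
  · intro p hp
    have hp1 : pH ρ p = 1 := hp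
    have hred : red (pG ρ p) = 1 := by
      have h1 : red (pG ρ p) = ρ (pH ρ p) := p.2
      rw [h1, hp1, map_one]
    have h2 := (ker_eq _).1 hred
    have h3 : Mg F ≤ (⨆ x, Ax ρ x).map (pG ρ) := by
      rw [Mg, Subgroup.closure_le]
      rintro _ ⟨x, f, hf, rfl⟩
      have h4 : (TU (cvec (vec x)) f, (1 : H)) ∈ Fib ρ := by
        rw [mem_Fib, map_one]
        exact red_Mg (TU_mem (vec_ne x) hf)
      exact ⟨⟨_, h4⟩, Subgroup.mem_iSup_of_mem x ⟨rfl, f, hf, rfl⟩, rfl⟩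
    obtain ⟨q, hq, hqp⟩ := h3 h2
    have h5 : q = p := pair_ext ρ hqp ((show pH ρ q = 1 from hle hq).trans hp1.symm)
    rwa [h5] at hq
  · refine lift_inj (pG ρ) (Ax ρ) ?_
    rintro x a ⟨h1, f, hf, h2⟩ hne
    refine ⟨f, hf, ?_, ?_⟩
    · rintro rfl
      apply hne
      apply pair_ext
      · rw [h2, TU_zero, map_one]
      · rw [h1, map_one]
    · rw [h2, TU_val]

theorem cst_mulVec (g : GL (Fin 2) F) (v : Fin 2 → F) : (cst g).val *ᵥ cvec v = cvec (g.val *ᵥ v) := by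
  funext i
  fin_cases i <;>
    simp [cst, cvec, GeneralLinearGroup.map, Matrix.mulVec, dotProduct, Fin.sum_univ_two]

theorem conj_line (g : GL (Fin 2) F) {x y : Option F} {a : F} (h : g.val *ᵥ vec x = a • vec y)
    {f : F[X]} (hf : X ∣ f) : ∃ f' : F[X], X ∣ f' ∧
      cst g * TU (cvec (vec x)) f * (cst g)⁻¹ = TU (cvec (vec y)) f' := by
  have hdet : (cst g).val.det = C g.val.det := by
    rw [show (cst g).val = (C : F →+* F[X]).mapMatrix g.val from rfl, ← RingHom.map_det]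
  have hd0 : g.val.det ≠ 0 := (Matrix.isUnit_iff_isUnit_det _).1 g.isUnit |>.ne_zero
  have h2 := TU_conj (cst g) (cvec (vec x)) (C (g.val.det)⁻¹ * f)
  rw [hdet, ← mul_assoc, ← C_mul, mul_inv_cancel₀ hd0, C_1, one_mul, cst_mulVec, h] at h2
  refine ⟨C a * C a * (C (g.val.det)⁻¹ * f), dvd_mul_of_dvd_right (dvd_mul_of_dvd_right hf _) _, ?_⟩
  rw [h2]
  apply Units.ext
  rw [TU_val, TU_val, ← T_smul]
  congr 1
  funext i
  simp [cvec]

theorem mulVec_ne (g : GL (Fin 2) F) {v : Fin 2 → F} (hv : v ≠ 0) : g.val *ᵥ v ≠ 0 := by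
  intro h4
  apply hv
  have h5 : (g⁻¹).val *ᵥ (g.val *ᵥ v) = v := by
    rw [Matrix.mulVec_mulVec, ← Units.val_mul, inv_mul_cancel, Units.val_one, Matrix.one_mulVec]
  rw [← h5, h4, Matrix.mulVec_zero]

theorem Ax_conj (g : Fib ρ) (x : Option F) : ∃ y, ∃ n ∈ (pH ρ).ker, ∀ p,
    p ∈ Ax ρ x ↔ n * (g * p * g⁻¹) * n⁻¹ ∈ Ax ρ y := by
  obtain ⟨γ, hγ⟩ : ∃ γ, γ = ρ (pH ρ g) := ⟨_, rfl⟩
  have hg : red (pG ρ g) = γ := by rw [hγ]; exact g.2
  obtain ⟨y, a, ha, hy⟩ := exists_vec (mulVec_ne γ (vec_ne x))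
  have hy' : (γ⁻¹).val *ᵥ vec y = a⁻¹ • vec x := by
    have h5 : (γ⁻¹).val *ᵥ (γ.val *ᵥ vec x) = vec x := by
      rw [Matrix.mulVec_mulVec, ← Units.val_mul, inv_mul_cancel, Units.val_one, Matrix.one_mulVec]
    rw [hy, Matrix.mulVec_smul] at h5
    rw [← h5, smul_smul, inv_mul_cancel₀ ha, one_smul]
  have hn : (cst γ * (pG ρ g)⁻¹, (1 : H)) ∈ Fib ρ := by
    rw [mem_Fib, map_one]
    show red (cst γ * (pG ρ g)⁻¹) = 1
    rw [map_mul, map_inv, hg, red_cst, mul_inv_cancel]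
  obtain ⟨n, hn'⟩ : ∃ n : Fib ρ, n = ⟨_, hn⟩ := ⟨_, rfl⟩
  have hnG : pG ρ n = cst γ * (pG ρ g)⁻¹ := by rw [hn']; rfl
  have hnH : pH ρ n = 1 := by rw [hn']; rfl
  refine ⟨y, n, hnH, fun p => ?_⟩
  have e1 : pG ρ (n * (g * p * g⁻¹) * n⁻¹) = cst γ * pG ρ p * (cst γ)⁻¹ := by
    simp only [map_mul, map_inv, hnG]
    group
  have e2 : pH ρ (n * (g * p * g⁻¹) * n⁻¹) = pH ρ g * pH ρ p * (pH ρ g)⁻¹ := by
    simp only [map_mul, map_inv, hnH]
    group
  constructor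
  · rintro ⟨h1, f, hf, h2⟩
    obtain ⟨f', hf', h3⟩ := conj_line γ hy hf
    refine ⟨?_, f', hf', ?_⟩
    · rw [e2, h1]; group
    · rw [e1, h2, h3]
  · rintro ⟨h1, f, hf, h2⟩
    rw [e2] at h1
    rw [e1] at h2
    obtain ⟨f', hf', h3⟩ := conj_line γ⁻¹ hy' hf
    refine ⟨?_, f', hf', ?_⟩
    · have : pH ρ p = (pH ρ g)⁻¹ * (pH ρ g * pH ρ p * (pH ρ g)⁻¹) * pH ρ g := by group
      rw [this, h1]; group
    · rw [← h3, ← h2, map_inv]
      group

/-- **the case of a field** -/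
theorem fib_field {C : ∀ (G : Type) [Group G], Prop} (hC : ClosedE C) (hF : FbC C)
    (hS : ∀ (S : Type) [Group S], Group.IsSolvable S → C S) (hH : C H) : C (Fib ρ) := by
  have hQ : C (Fib ρ ⧸ (pH ρ).ker) :=
    C_equiv hC.base (QuotientGroup.quotientKerEquivOfSurjective (pH ρ) (pH_surj ρ)) hH
  refine main_all hC hF hQ (Ax ρ) Set.univ (Ax_isFreeProd ρ) (fun i hi => absurd trivial hi) ?_ ?_
  · intro x _ g
    obtain ⟨y, n, hn, h⟩ := Ax_conj ρ g x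
    exact ⟨y, trivial, n, hn, h⟩
  · intro x _ g hg
    refine hS _ (solv_sup (Ax ρ x) ?_ g hg)
    rintro p ⟨h1, f, hf, h2⟩ q ⟨k1, f', hf', k2⟩
    apply pair_ext
    · rw [map_mul, map_mul, h2, k2, TU_comm]
    · rw [map_mul, map_mul, h1, k1]

end field

end Pool.Agent.K7.H87.FJ2
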