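import Pool.Agent.K7.H87.FJ2.Rg

/-!
# Graded rings and polynomial rings
-/

set_option autoImplicit false

namespace Pool.Agent.K7.H87.FJ2

open Polynomial Matrix Pool.Agent.Y110.FJ Pool.Agent.R684.FP

/-- the group of the pairs `(g, h)` such that `g` is mapped to `ρ h` by the ring homomorphism `π` -/
def FP {A R H : Type} [CommRing A] [CommRing R] [Group H] (π : A →+* R) (ρ : H →* GL (Fin 2) R) :
    Subgroup (GL (Fin 2) A × H) where
  carrier := {p | GeneralLinearGroup.map π p.1 = ρ p.2}
  one_mem' := by simp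
  mul_mem' := by
    intro p q hp hq
    show GeneralLinearGroup.map π (p.1 * q.1) = ρ (p.2 * q.2)
    rw [map_mul, map_mul, hp, hq]
  inv_mem' := by
    intro p hp
    show GeneralLinearGroup.map π p.1⁻¹ = ρ p.2⁻¹
    rw [map_inv, map_inv, hp]

theorem mem_FP {A R H : Type} [CommRing A] [CommRing R] [Group H] {π : A →+* R}
    {ρ : H →* GL (Fin 2) R} {p : GL (Fin 2) A × H} :
    p ∈ FP π ρ ↔ GeneralLinearGroup.map π p.1 = ρ p.2 := Iff.rfl

variable {C : ∀ (G : Type) [Group G], Prop}

theorem FP_of {A B R H : Type} [CommRing A] [CommRing B] [CommRing R] [Group H]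
    (hC : ClosedE C) (hF : FbC C) (hS : ∀ (S : Type) [Group S], Group.IsSolvable S → C S)
    (π : A →+* R) (ρ : H →* GL (Fin 2) R) (τ : A →+* B[X]) (hτ : Function.Injective τ)
    (ι : R →+* B) (h : ∀ a, (τ a).coeff 0 = ι (π a)) (hH : C H) : C (FP π ρ) := by
  have hfib := fib_all hC hF hS hH ((GeneralLinearGroup.map ι).comp ρ)
  have hmem : ∀ p : FP π ρ, (((GeneralLinearGroup.map τ).prodMap (MonoidHom.id H)).comp
      (FP π ρ).subtype) p ∈ Fib ((GeneralLinearGroup.map ι).comp ρ) := by
    intro p
    rw [mem_Fib]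
    show red (GeneralLinearGroup.map τ p.1.1) = GeneralLinearGroup.map ι (ρ p.1.2)
    rw [← mem_FP.1 p.2]
    apply Units.ext
    ext i j
    show (Polynomial.evalRingHom 0) (τ (p.1.1.val i j)) = ι (π (p.1.1.val i j))
    rw [← h, Polynomial.coe_evalRingHom, Polynomial.coeff_zero_eq_eval_zero]
  refine hC.base.of_injective _ _ (((((GeneralLinearGroup.map τ).prodMap (MonoidHom.id H)).comp
      (FP π ρ).subtype)).codRestrict _ hmem) ?_ hfib
  intro p q hpq
  have h1 : GeneralLinearGroup.map τ p.1.1 = GeneralLinearGroup.map τ q.1.1 :=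
    congrArg (fun r : Fib ((GeneralLinearGroup.map ι).comp ρ) => r.1.1) hpq
  have h2 : p.1.2 = q.1.2 :=
    congrArg (fun r : Fib ((GeneralLinearGroup.map ι).comp ρ) => r.1.2) hpq
  exact Subtype.ext (Prod.ext (gl_map_injective hτ h1) h2)

theorem of_FP {A R H : Type} [CommRing A] [CommRing R] [Group H] (hC : ClosedE C)
    (π : A →+* R) (s : R →+* A) (hs : ∀ r, π (s r) = r) (ρ : H →* GL (Fin 2) R)
    (h : C (FP π ρ)) : C H := by
  refine hC.base.of_injective _ _ ((((GeneralLinearGroup.map s).comp ρ).prod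
    (MonoidHom.id H)).codRestrict (FP π ρ) ?_) ?_ h
  · intro x
    rw [mem_FP]
    apply Units.ext
    ext i j
    exact hs _
  · intro x y hxy
    exact congrArg (fun q : FP π ρ => q.1.2) hxy

section graded

variable {A : Type} [CommRing A] (𝒜 : ℕ → AddSubgroup A) [GradedRing 𝒜]

/-- `a ↦ ∑ aₙ tⁿ` on the direct sum -/
noncomputable def tau0 : (DirectSum ℕ fun n => 𝒜 n) →+* A[X] :=
  DirectSum.toSemiring (fun n => ((monomial n : A →ₗ[A] A[X]).toAddMonoidHom.comp (𝒜 n).subtype))
    (by
      show monomial 0 (((1 : 𝒜 0) : A)) = 1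
      rw [SetLike.GradeZero.coe_one]
      rfl)
    (by
      intro i j a b
      show monomial (i + j) ((a : A) * (b : A)) = monomial i (a : A) * monomial j (b : A)
      rw [monomial_mul_monomial])

/-- `a ↦ ∑ aₙ tⁿ` -/
noncomputable def tau : A →+* A[X] :=
  (tau0 𝒜).comp (DirectSum.decomposeRingEquiv 𝒜).toRingHom

theorem tau_coe {n : ℕ} (a : 𝒜 n) : tau 𝒜 (a : A) = monomial n (a : A) := by
  show tau0 𝒜 (DirectSum.decompose 𝒜 (a : A)) = _
  rw [DirectSum.decompose_coe, tau0, DirectSum.toSemiring_of]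
  rfl

theorem tau_coeff (a : A) (m : ℕ) : (tau 𝒜 a).coeff m = (DirectSum.decompose 𝒜 a m : A) := by
  induction a using DirectSum.Decomposition.inductionOn 𝒜 with
  | zero => simp
  | @homogeneous i a =>
    rw [tau_coe, coeff_monomial]
    split_ifs with h
    · subst h
      rw [DirectSum.decompose_coe, DirectSum.of_eq_same]
    · rw [DirectSum.decompose_of_mem_ne 𝒜 a.2 h]
  | add a b ha hb =>
    rw [map_add, coeff_add, ha, hb, DirectSum.decompose_add, DirectSum.add_apply,
      AddSubgroup.coe_add]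

theorem tau_injective : Function.Injective (tau 𝒜) := by
  rw [injective_iff_map_eq_zero]
  intro a ha
  have h1 : DirectSum.decompose 𝒜 a = 0 := by
    ext m
    rw [← tau_coeff, ha]
    simp
  exact (DirectSum.decompose 𝒜).injective (by rw [h1, DirectSum.decompose_zero])

/-- the inclusion of the ring of the elements of degree `0` -/
def inc : 𝒜 0 →+* A where
  toFun a := a
  map_one' := rfl
  map_mul' _ _ := rfl
  map_zero' := rfl
  map_add' _ _ := rfl

theorem graded_iff {H : Type} [Group H] (hC : ClosedE C) (hF : FbC C)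
    (hS : ∀ (S : Type) [Group S], Group.IsSolvable S → C S) (ρ : H →* GL (Fin 2) (𝒜 0)) :
    C H ↔ C (FP (GradedRing.projZeroRingHom' 𝒜) ρ) := by
  constructor
  · refine FP_of hC hF hS _ ρ (tau 𝒜) (tau_injective 𝒜) (inc 𝒜) ?_
    intro a
    rw [tau_coeff]
    rfl
  · exact of_FP hC _ (inc 𝒜) (fun r => GradedRing.projZeroRingHom'_apply_coe 𝒜 r) ρ

end graded

theorem gl_iff {A R : Type} [CommRing A] [CommRing R] (hC : ClosedE C) (π : A →+* R) (s : R →+* A)
    (hs : ∀ r, π (s r) = r) (h : C (GL (Fin 2) R) ↔ C (FP π (MonoidHom.id (GL (Fin 2) R)))) :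
    C (GL (Fin 2) R) ↔ C (GL (Fin 2) A) := by
  constructor
  · intro h1
    refine hC.base.of_injective _ _ (((MonoidHom.id _).prod
      (GeneralLinearGroup.map π)).codRestrict (FP π (MonoidHom.id (GL (Fin 2) R))) ?_) ?_ (h.1 h1)
    · intro g
      rfl
    · intro x y hxy
      exact congrArg (fun q : FP π (MonoidHom.id (GL (Fin 2) R)) => q.1.1) hxy
  · intro h1
    refine hC.base.of_injective _ _ (GeneralLinearGroup.map s) (gl_map_injective ?_) h1
    intro a b hab
    rw [← hs a, hab, hs]

theorem sl_map_injective {A B : Type} [CommRing A] [CommRing B] {φ : A →+* B}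
    (hφ : Function.Injective φ) :
    Function.Injective (SpecialLinearGroup.map (n := Fin 2) φ) := by
  intro g h hgh
  ext i j
  apply hφ
  exact congrArg (fun k : SpecialLinearGroup (Fin 2) B => k.val i j) hgh

theorem toGL_injective {A : Type} [CommRing A] :
    Function.Injective (SpecialLinearGroup.toGL (n := Fin 2) (R := A)) := by
  intro g h hgh
  ext i j
  exact congrArg (fun k : GL (Fin 2) A => k.val i j) hgh

theorem sl_iff {A R : Type} [CommRing A] [CommRing R] (hC : ClosedE C) (π : A →+* R) (s : R →+* A)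
    (hs : ∀ r, π (s r) = r) (h : C (SpecialLinearGroup (Fin 2) R) ↔
      C (FP π (SpecialLinearGroup.toGL (n := Fin 2) (R := R)))) :
    C (SpecialLinearGroup (Fin 2) R) ↔ C (SpecialLinearGroup (Fin 2) A) := by
  constructor
  · intro h1
    refine hC.base.of_injective _ _ (((SpecialLinearGroup.toGL).prod
      (SpecialLinearGroup.map π)).codRestrict
        (FP π (SpecialLinearGroup.toGL (n := Fin 2) (R := R))) ?_) ?_ (h.1 h1)
    · intro g
      apply Units.ext
      rfl
    · intro x y hxy
      exact toGL_injective (congrArg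
        (fun q : FP π (SpecialLinearGroup.toGL (n := Fin 2) (R := R)) => q.1.1) hxy)
  · intro h1
    refine hC.base.of_injective _ _ (SpecialLinearGroup.map s) (sl_map_injective ?_) h1
    intro a b hab
    rw [← hs a, hab, hs]

section poly

variable (σ R : Type) [CommRing R]

/-- `xᵢ ↦ xᵢ t` -/
noncomputable def tauP : MvPolynomial σ R →+* (MvPolynomial σ R)[X] :=
  MvPolynomial.eval₂Hom ((Polynomial.C).comp MvPolynomial.C)
    fun i => Polynomial.C (MvPolynomial.X i) * Polynomial.X

theorem tauP_injective : Function.Injective (tauP σ R) := by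
  have h1 : (Polynomial.evalRingHom 1).comp (tauP σ R) = RingHom.id (MvPolynomial σ R) := by
    apply MvPolynomial.ringHom_ext
    · intro r
      simp [tauP]
    · intro i
      simp [tauP]
  exact Function.LeftInverse.injective fun a => DFunLike.congr_fun h1 a

theorem tauP_coeff (a : MvPolynomial σ R) :
    (tauP σ R a).coeff 0 = MvPolynomial.C (MvPolynomial.constantCoeff a) := by
  have h1 : (Polynomial.evalRingHom 0).comp (tauP σ R) =
      (MvPolynomial.C).comp (MvPolynomial.constantCoeff) := by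
    apply MvPolynomial.ringHom_ext
    · intro r
      simp [tauP]
    · intro i
      simp [tauP]
  rw [Polynomial.coeff_zero_eq_eval_zero]
  exact DFunLike.congr_fun h1 a

variable {σ R}

theorem poly_iff {H : Type} [Group H] (hC : ClosedE C) (hF : FbC C)
    (hS : ∀ (S : Type) [Group S], Group.IsSolvable S → C S) (ρ : H →* GL (Fin 2) R) :
    C H ↔ C (FP (MvPolynomial.constantCoeff (σ := σ)) ρ) := by
  constructor
  · exact FP_of hC hF hS _ ρ (tauP σ R) (tauP_injective σ R) MvPolynomial.C (tauP_coeff σ R)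
  · exact of_FP hC _ MvPolynomial.C (fun r => MvPolynomial.constantCoeff_C σ r) ρ

end poly

end Pool.Agent.K7.H87.FJ2
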