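import Pool.Agent.K7.H87.FJ2.Ext
import Pool.Agent.R615.SC.Full

/-!
# Arbitrary commutative rings
-/

set_option autoImplicit false

namespace Pool.Agent.K7.H87.FJ2

open Polynomial Matrix Pool.Agent.Y110.FJ Pool.Agent.R684.FP
open Pool.Agent.R941.FJ (C_equiv C_le C_cyc mem_sup_normal)
open scoped commutatorElement

theorem gl_map_injective {A B : Type} [CommRing A] [CommRing B] {φ : A →+* B}
    (hφ : Function.Injective φ) :
    Function.Injective (GeneralLinearGroup.map (n := Fin 2) φ) := by
  intro g h hgh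
  apply Units.ext
  ext i j
  apply hφ
  have := congrArg (fun k : GL (Fin 2) B => k.val i j) hgh
  exact this

theorem mem_ker_map {A B : Type} [CommRing A] [CommRing B] (φ : A →+* B) (g : GL (Fin 2) A) :
    g ∈ (GeneralLinearGroup.map (n := Fin 2) φ).ker ↔
      ∀ i j, φ (g.val i j) = φ ((1 : Matrix (Fin 2) (Fin 2) A) i j) := by
  rw [MonoidHom.mem_ker]
  constructor
  · intro h i j
    have h1 := congrArg (fun k : GL (Fin 2) B => k.val i j) h
    have h2 : φ (g.val i j) = (1 : Matrix (Fin 2) (Fin 2) B) i j := h1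
    rw [h2, Matrix.one_apply, Matrix.one_apply]
    split_ifs <;> simp
  · intro h
    apply Units.ext
    ext i j
    show φ (g.val i j) = (1 : Matrix (Fin 2) (Fin 2) B) i j
    rw [h, Matrix.one_apply, Matrix.one_apply]
    split_ifs <;> simp

theorem mem_ker_mk {A : Type} [CommRing A] (J : Ideal A) (g : GL (Fin 2) A) :
    g ∈ (GeneralLinearGroup.map (n := Fin 2) (Ideal.Quotient.mk J)).ker ↔
      ∀ i j, g.val i j - (1 : Matrix (Fin 2) (Fin 2) A) i j ∈ J := by
  rw [mem_ker_map]
  simp only [Ideal.Quotient.eq]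

/-- congruence subgroups modulo nilpotent ideals are solvable -/
theorem nil_solv : ∀ (n : ℕ) (B : Type) [CommRing B] (J : Ideal B), J ^ n = ⊥ →
    Group.IsSolvable (GeneralLinearGroup.map (n := Fin 2) (Ideal.Quotient.mk J)).ker := by
  intro n
  induction n with
  | zero =>
    intro B _ J hJ
    have h1 : (⊤ : Ideal B) = ⊥ := by rw [← hJ, pow_zero, Ideal.one_eq_top]
    have h2 : ∀ a b : B, a = b := by
      intro a b
      have ha : a - b ∈ (⊤ : Ideal B) := trivial
      rw [h1, Ideal.mem_bot] at ha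
      exact sub_eq_zero.1 ha
    exact Group.isSolvable_of_comm fun a b => by
      apply Subtype.ext
      apply Units.ext
      ext i j
      exact h2 _ _
  | succ n ih =>
    intro B _ J hJ
    rcases Nat.eq_zero_or_pos n with hn | hn
    · subst hn
      rw [zero_add, pow_one] at hJ
      exact Group.isSolvable_of_comm fun a b => by
        have h3 : ∀ a : (GeneralLinearGroup.map (n := Fin 2) (Ideal.Quotient.mk J)).ker, a = 1 := by
          intro a
          apply Subtype.ext
          apply Units.ext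
          ext i j
          have h4 : a.1.val i j - (1 : Matrix (Fin 2) (Fin 2) B) i j ∈ (⊥ : Ideal B) := by
            rw [← hJ]
            exact (mem_ker_mk J a.1).1 a.2 i j
          exact sub_eq_zero.1 ((Ideal.mem_bot).1 h4)
        rw [h3 a, h3 b]
    · set I : Ideal B := J ^ n with hI
      have hI2 : ∀ x ∈ I, ∀ y ∈ I, x * y = 0 := by
        intro x hx y hy
        have h1 : x * y ∈ J ^ (n + n) := by
          rw [pow_add]
          exact Ideal.mul_mem_mul hx hy
        have h2 : J ^ (n + n) ≤ J ^ (n + 1) := Ideal.pow_le_pow_right (by omega)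
        have h3 := h2 h1
        rwa [hJ, Ideal.mem_bot] at h3
      set J' : Ideal (B ⧸ I) := J.map (Ideal.Quotient.mk I) with hJ'
      have hJn : J' ^ n = ⊥ := by
        rw [hJ', ← Ideal.map_pow, ← hI, Ideal.map_quotient_self]
      have hs := ih (B ⧸ I) J' hJn
      have hmem : ∀ k : (GeneralLinearGroup.map (n := Fin 2) (Ideal.Quotient.mk J)).ker,
          GeneralLinearGroup.map (Ideal.Quotient.mk I) k.1 ∈
            (GeneralLinearGroup.map (n := Fin 2) (Ideal.Quotient.mk J')).ker := by
        intro k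
        rw [mem_ker_mk]
        intro i j
        have h4 := Ideal.mem_map_of_mem (Ideal.Quotient.mk I) ((mem_ker_mk J k.1).1 k.2 i j)
        rw [map_sub] at h4
        have h5 : (Ideal.Quotient.mk I) ((1 : Matrix (Fin 2) (Fin 2) B) i j) =
            (1 : Matrix (Fin 2) (Fin 2) (B ⧸ I)) i j := by
          rw [Matrix.one_apply, Matrix.one_apply]
          split_ifs <;> simp
        rw [h5] at h4
        exact h4
      let f : (GeneralLinearGroup.map (n := Fin 2) (Ideal.Quotient.mk J)).ker →*
          (GeneralLinearGroup.map (n := Fin 2) (Ideal.Quotient.mk J')).ker :=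
        ((GeneralLinearGroup.map (Ideal.Quotient.mk I)).comp (Subgroup.subtype _)).codRestrict _ hmem
      have hker : Group.IsSolvable f.ker := by
        refine Group.isSolvable_of_comm fun a b => ?_
        have hk : ∀ a : f.ker, ∀ i j, (a.1.1.val i j) - (1 : Matrix (Fin 2) (Fin 2) B) i j ∈ I := by
          intro a
          rw [← mem_ker_mk]
          have h6 : f a.1 = 1 := a.2
          exact congrArg Subtype.val h6
        apply Subtype.ext
        apply Subtype.ext
        apply Units.ext
        show a.1.1.val * b.1.1.val = b.1.1.val * a.1.1.val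
        obtain ⟨x, hx⟩ : ∃ x : Matrix (Fin 2) (Fin 2) B, x = a.1.1.val - 1 := ⟨_, rfl⟩
        obtain ⟨y, hy⟩ : ∃ y : Matrix (Fin 2) (Fin 2) B, y = b.1.1.val - 1 := ⟨_, rfl⟩
        have hxI : ∀ i j, x i j ∈ I := fun i j => by rw [hx]; exact hk a i j
        have hyI : ∀ i j, y i j ∈ I := fun i j => by rw [hy]; exact hk b i j
        have hxy : x * y = 0 := by
          ext i j
          rw [Matrix.mul_apply, Fin.sum_univ_two, hI2 _ (hxI _ _) _ (hyI _ _),
            hI2 _ (hxI _ _) _ (hyI _ _), add_zero, Matrix.zero_apply]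
        have hyx : y * x = 0 := by
          ext i j
          rw [Matrix.mul_apply, Fin.sum_univ_two, hI2 _ (hyI _ _) _ (hxI _ _),
            hI2 _ (hyI _ _) _ (hxI _ _), add_zero, Matrix.zero_apply]
        have ha : a.1.1.val = 1 + x := by rw [hx]; abel
        have hb : b.1.1.val = 1 + y := by rw [hy]; abel
        rw [ha, hb, add_mul, one_mul, mul_add, mul_one, hxy, add_mul, one_mul, mul_add, mul_one, hyx]
        abel
      exact Group.isSolvable_of_ker_le_range f.ker.subtype f (by rw [Subgroup.range_subtype])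

/-- extensions with solvable kernels -/
theorem ext_solv {C : ∀ (G : Type) [Group G], Prop} (hC : ClosedE C)
    (hS : ∀ (S : Type) [Group S], Group.IsSolvable S → C S) {G : Type} [Group G] (N : Subgroup G)
    [N.Normal] (hN : Group.IsSolvable N) (hQ : C (G ⧸ N)) : C G := by
  refine Pool.Agent.Y529.FJ.t_ext C hC G N (hS _ hN) hQ ?_
  intro g _
  apply hS
  let f : ↥(N ⊔ Subgroup.zpowers g) →* G ⧸ N :=
    (QuotientGroup.mk' N).comp (Subgroup.subtype _)
  have h1 : Group.IsSolvable f.range := by
    refine Group.isSolvable_of_comm fun a b => ?_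
    have h2 : f.range ≤ Subgroup.zpowers (QuotientGroup.mk' N g) := by
      rintro _ ⟨x, rfl⟩
      obtain ⟨a, ha, b, hb, hab⟩ := mem_sup_normal.1 x.2
      obtain ⟨k, hk⟩ := Subgroup.mem_zpowers_iff.1 hb
      refine Subgroup.mem_zpowers_iff.2 ⟨k, ?_⟩
      show _ = QuotientGroup.mk' N x.1
      rw [← hab, map_mul, ← hk, map_zpow]
      have : QuotientGroup.mk' N a = 1 := (QuotientGroup.eq_one_iff _).2 ha
      rw [this, one_mul]
    obtain ⟨i, hi⟩ := Subgroup.mem_zpowers_iff.1 (h2 a.2)
    obtain ⟨j, hj⟩ := Subgroup.mem_zpowers_iff.1 (h2 b.2)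
    apply Subtype.ext
    show a.1 * b.1 = b.1 * a.1
    rw [← hi, ← hj]
    exact zpow_mul_comm _ _ _
  have h2 : Group.IsSolvable (N.subgroupOf (N ⊔ Subgroup.zpowers g)) :=
    Group.isSolvable_of_isSolvable_injective
      (f := (Subgroup.subgroupOfEquivOfLe (le_sup_left : N ≤ N ⊔ Subgroup.zpowers g)).toMonoidHom)
      (Subgroup.subgroupOfEquivOfLe (le_sup_left : N ≤ N ⊔ Subgroup.zpowers g)).injective
  refine Group.isSolvable_of_ker_le_range (N.subgroupOf (N ⊔ Subgroup.zpowers g)).subtype
    f.rangeRestrict ?_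
  rw [Subgroup.range_subtype]
  intro x hx
  have h3 : QuotientGroup.mk' N x.1 = 1 :=
    congrArg Subtype.val (show f.rangeRestrict x = 1 from hx)
  exact Subgroup.mem_subgroupOf.2 ((QuotientGroup.eq_one_iff _).1 h3)

section fib

variable {H : Type} [Group H]

/-- change of rings -/
noncomputable def fibMap {A B : Type} [CommRing A] [CommRing B] (ρ : H →* GL (Fin 2) A)
    (φ : A →+* B) : Fib ρ →* Fib ((GeneralLinearGroup.map φ).comp ρ) :=
  (((GeneralLinearGroup.map (mapRingHom φ)).prodMap (MonoidHom.id H)).comp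
    (Fib ρ).subtype).codRestrict _ fun p => by
      rw [mem_Fib]
      show red (GeneralLinearGroup.map (mapRingHom φ) p.1.1) = GeneralLinearGroup.map φ (ρ p.1.2)
      rw [← mem_Fib.1 p.2]
      apply Units.ext
      ext i j
      show (Polynomial.evalRingHom 0) ((mapRingHom φ) (p.1.1.val i j)) =
        φ ((Polynomial.evalRingHom 0) (p.1.1.val i j))
      simp [Polynomial.eval_map, ← Polynomial.coeff_zero_eq_eval_zero]

theorem fibMap_eq_one {A B : Type} [CommRing A] [CommRing B] (ρ : H →* GL (Fin 2) A)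
    (φ : A →+* B) (p : Fib ρ) : fibMap ρ φ p = 1 ↔
      pH ρ p = 1 ∧ GeneralLinearGroup.map (mapRingHom φ) (pG ρ p) = 1 := by
  constructor
  · intro h
    have h1 := congrArg Subtype.val h
    exact ⟨congrArg Prod.snd h1, congrArg Prod.fst h1⟩
  · rintro ⟨h1, h2⟩
    exact Subtype.ext (Prod.ext h2 h1)

theorem fibMap_injective {A B : Type} [CommRing A] [CommRing B] (ρ : H →* GL (Fin 2) A)
    {φ : A →+* B} (hφ : Function.Injective φ) : Function.Injective (fibMap ρ φ) := by
  rw [injective_iff_map_eq_one]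
  intro p hp
  obtain ⟨h1, h2⟩ := (fibMap_eq_one ρ φ p).1 hp
  have h3 : pG ρ p = 1 := gl_map_injective (φ := mapRingHom φ)
    (Polynomial.map_injective φ hφ) (by rw [h2, map_one])
  exact Subtype.ext (Prod.ext h3 h1)

variable {C : ∀ (G : Type) [Group G], Prop}

/-- domains -/
theorem fib_domain (hC : ClosedE C) (hF : FbC C)
    (hS : ∀ (S : Type) [Group S], Group.IsSolvable S → C S) (hH : C H) {A : Type} [CommRing A]
    [IsDomain A] (ρ : H →* GL (Fin 2) A) : C (Fib ρ) :=
  hC.base.of_injective _ _ (fibMap ρ (algebraMap A (FractionRing A)))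
    (fibMap_injective ρ (IsFractionRing.injective A (FractionRing A)))
    (fib_field _ hC hF hS hH)

/-- noetherian rings -/
theorem fib_noeth (hC : ClosedE C) (hF : FbC C)
    (hS : ∀ (S : Type) [Group S], Group.IsSolvable S → C S) (hH : C H) {A : Type} [CommRing A]
    [IsNoetherianRing A] (ρ : H →* GL (Fin 2) A) : C (Fib ρ) := by
  have hfin : Finite (minimalPrimes A) := (minimalPrimes.finite_of_isNoetherianRing A).to_subtype
  have hdom : ∀ p : minimalPrimes A, IsDomain (A ⧸ p.1) := fun p =>
    (Ideal.Quotient.isDomain_iff_prime _).2 p.2.1.1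
  let Φ : Fib ρ →* H × (∀ p : minimalPrimes A,
      Fib ((GeneralLinearGroup.map (Ideal.Quotient.mk p.1)).comp ρ)) :=
    (pH ρ).prod (MonoidHom.pi fun p => fibMap ρ (Ideal.Quotient.mk p.1))
  have h1 := hC.base.prod _ _ hH (Pool.Agent.R615.SC.pi_finite hC.base (minimalPrimes A)
    (fun p => Fib ((GeneralLinearGroup.map (Ideal.Quotient.mk p.1)).comp ρ))
    fun p => fib_domain hC hF hS hH _)
  have h2 : C (Fib ρ ⧸ Φ.ker) :=
    hC.base.of_injective _ _ (QuotientGroup.kerLift Φ) (QuotientGroup.kerLift_injective Φ) h1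
  refine ext_solv hC hS Φ.ker ?_ h2
  obtain ⟨n, hn⟩ := IsNoetherianRing.isNilpotent_nilradical A
  set J : Ideal A[X] := (nilradical A).map Polynomial.C with hJ
  have hJn : J ^ n = ⊥ := by
    rw [hJ, ← Ideal.map_pow]
    have : nilradical A ^ n = ⊥ := hn
    rw [this, Ideal.map_bot]
  have hs := nil_solv n A[X] J hJn
  have hmem : ∀ p : Φ.ker, pG ρ p.1 ∈
      (GeneralLinearGroup.map (n := Fin 2) (Ideal.Quotient.mk J)).ker := by
    intro p
    rw [mem_ker_mk]
    intro i j
    rw [hJ, Ideal.mem_map_C_iff]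
    intro m
    have h3 : nilradical A = sInf (minimalPrimes A) := (Ideal.sInf_minimalPrimes (I := (⊥ : Ideal A))).symm
    rw [h3, Submodule.mem_sInf]
    intro q hq
    have h4 : fibMap ρ (Ideal.Quotient.mk q) p.1 = 1 := congrFun (congrArg Prod.snd p.2) ⟨q, hq⟩
    have h5 := ((fibMap_eq_one ρ _ p.1).1 h4).2
    have h6 := (mem_ker_map (mapRingHom (Ideal.Quotient.mk q)) (pG ρ p.1)).1 h5 i j
    have h7 := congrArg (fun r : (A ⧸ q)[X] => r.coeff m) h6
    simp only [coe_mapRingHom, coeff_map] at h7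
    rw [coeff_sub]
    exact Ideal.Quotient.eq.1 h7
  have hsolv := hs
  refine Group.isSolvable_of_isSolvable_injective (G' :=
    (GeneralLinearGroup.map (n := Fin 2) (Ideal.Quotient.mk J)).ker)
    (f := ((pG ρ).comp Φ.ker.subtype).codRestrict _ hmem) ?_
  rw [injective_iff_map_eq_one]
  intro p hp
  have h8 : pG ρ p.1 = 1 := congrArg Subtype.val hp
  have h9 : pH ρ p.1 = 1 := congrArg Prod.fst p.2
  exact Subtype.ext (Subtype.ext (Prod.ext h8 h9))

theorem exists_lift {A : Type} [CommRing A] (S : Subring A) (p : A[X])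
    (h : ∀ m, p.coeff m ∈ S) : ∃ q : S[X], mapRingHom S.subtype q = p := by
  have h1 : (↑p.coeffs : Set A) ⊆ S := by
    intro c hc
    obtain ⟨n, _, rfl⟩ := Polynomial.mem_coeffs_iff.1 (Finset.mem_coe.1 hc)
    exact h n
  exact ⟨p.toSubring S h1, by rw [coe_mapRingHom]; exact map_toSubring p S h1⟩

theorem gl_mem_range {A : Type} [CommRing A] (S : Subring A) (g : GL (Fin 2) A[X])
    (h1 : ∀ i j m, (g.val i j).coeff m ∈ S) (h2 : ∀ i j m, (g⁻¹.val i j).coeff m ∈ S) :
    g ∈ (GeneralLinearGroup.map (n := Fin 2) (mapRingHom S.subtype)).range := by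
  choose a ha using fun i j => exists_lift S (g.val i j) (h1 i j)
  choose b hb using fun i j => exists_lift S (g⁻¹.val i j) (h2 i j)
  have hinj : Function.Injective (mapRingHom S.subtype) :=
    Polynomial.map_injective _ S.subtype_injective
  have hm : Function.Injective ((mapRingHom S.subtype).mapMatrix (m := Fin 2)) := by
    intro x y hxy
    ext1 i j
    exact hinj (congrFun (congrFun hxy i) j)
  have ha' : (mapRingHom S.subtype).mapMatrix (Matrix.of a) = g.val := by
    ext1 i j
    exact ha i j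
  have hb' : (mapRingHom S.subtype).mapMatrix (Matrix.of b) = g⁻¹.val := by
    ext1 i j
    exact hb i j
  refine ⟨⟨Matrix.of a, Matrix.of b, hm ?_, hm ?_⟩, ?_⟩
  · rw [map_mul, map_one, ha', hb', ← Units.val_mul, mul_inv_cancel, Units.val_one]
  · rw [map_mul, map_one, ha', hb', ← Units.val_mul, inv_mul_cancel, Units.val_one]
  · exact Units.ext ha'

/-- the elements of `Fib ρ` with coefficients in a subring -/
noncomputable def KS {A : Type} [CommRing A] (ρ : H →* GL (Fin 2) A) (S : Subring A) :
    Subgroup (Fib ρ) :=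
  (GeneralLinearGroup.map (n := Fin 2) (mapRingHom S.subtype)).range.comap (pG ρ)

theorem KS_mono {A : Type} [CommRing A] (ρ : H →* GL (Fin 2) A) {S T : Subring A} (h : S ≤ T) :
    KS ρ S ≤ KS ρ T := by
  rintro p ⟨g, hg⟩
  refine ⟨GeneralLinearGroup.map (mapRingHom (Subring.inclusion h)) g, ?_⟩
  rw [← hg]
  apply Units.ext
  ext1 i j
  show (mapRingHom T.subtype) ((mapRingHom (Subring.inclusion h)) (g.val i j)) =
    (mapRingHom S.subtype) (g.val i j)
  rw [coe_mapRingHom, coe_mapRingHom, coe_mapRingHom, Polynomial.map_map]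
  rfl

theorem red_map {A B : Type} [CommRing A] [CommRing B] (φ : A →+* B) (g : GL (Fin 2) A[X]) :
    red (GeneralLinearGroup.map (mapRingHom φ) g) = GeneralLinearGroup.map φ (red g) := by
  apply Units.ext
  ext i j
  show (Polynomial.evalRingHom 0) ((mapRingHom φ) (g.val i j)) =
    φ ((Polynomial.evalRingHom 0) (g.val i j))
  simp [Polynomial.eval_map, ← Polynomial.coeff_zero_eq_eval_zero]

theorem KS_mem (hC : ClosedE C) (hF : FbC C)
    (hS : ∀ (S : Type) [Group S], Group.IsSolvable S → C S) (hH : C H) {A : Type} [CommRing A]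
    (ρ : H →* GL (Fin 2) A) (S : Subring A) [IsNoetherianRing S] : C (KS ρ S) := by
  have hi0 : Function.Injective (GeneralLinearGroup.map (n := Fin 2) S.subtype) :=
    gl_map_injective S.subtype_injective
  have hi1 : Function.Injective (GeneralLinearGroup.map (n := Fin 2) (mapRingHom S.subtype)) :=
    gl_map_injective (Polynomial.map_injective _ S.subtype_injective)
  let HS : Subgroup H := (GeneralLinearGroup.map (n := Fin 2) S.subtype).range.comap ρ
  let e0 := MonoidHom.ofInjective hi0
  let e1 := MonoidHom.ofInjective hi1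
  let ρS : HS →* GL (Fin 2) S :=
    e0.symm.toMonoidHom.comp ((ρ.comp HS.subtype).codRestrict _ fun h => h.2)
  have hρS : ∀ h : HS, GeneralLinearGroup.map S.subtype (ρS h) = ρ h := by
    intro h
    have h1 : e0 (ρS h) = ⟨ρ h, h.2⟩ := e0.apply_symm_apply _
    exact congrArg Subtype.val h1
  have hHS : C HS := hC.base.of_injective _ _ HS.subtype HS.subtype_injective hH
  have hfib := fib_noeth hC hF hS hHS ρS
  have hmem : ∀ p : KS ρ S, pH ρ p.1 ∈ HS := by
    rintro ⟨p, g, hg⟩
    refine ⟨red g, ?_⟩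
    rw [← red_map, hg]
    exact p.2
  let f1 : KS ρ S →* GL (Fin 2) S[X] :=
    e1.symm.toMonoidHom.comp (((pG ρ).comp (KS ρ S).subtype).codRestrict _ fun p => p.2)
  have hf1 : ∀ p : KS ρ S, GeneralLinearGroup.map (mapRingHom S.subtype) (f1 p) = pG ρ p.1 := by
    intro p
    have h1 : e1 (f1 p) = ⟨pG ρ p.1, p.2⟩ := e1.apply_symm_apply _
    exact congrArg Subtype.val h1
  let f2 : KS ρ S →* HS := ((pH ρ).comp (KS ρ S).subtype).codRestrict _ hmem
  have hf12 : ∀ p, (f1.prod f2) p ∈ Fib ρS := by
    intro p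
    rw [mem_Fib]
    show red (f1 p) = ρS (f2 p)
    apply hi0
    rw [← red_map, hf1, hρS]
    exact p.1.2
  refine hC.base.of_injective _ _ ((f1.prod f2).codRestrict _ hf12) ?_ hfib
  rw [injective_iff_map_eq_one]
  intro p hp
  have h1 : f1 p = 1 := congrArg (fun q : Fib ρS => q.1.1) hp
  have h2 : f2 p = 1 := congrArg (fun q : Fib ρS => q.1.2) hp
  have h3 : pG ρ p.1 = 1 := by rw [← hf1, h1, map_one]
  have h4 : pH ρ p.1 = 1 := congrArg Subtype.val h2
  exact Subtype.ext (Subtype.ext (Prod.ext h3 h4))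

/-- **arbitrary commutative rings** -/
theorem fib_all (hC : ClosedE C) (hF : FbC C)
    (hS : ∀ (S : Type) [Group S], Group.IsSolvable S → C S) (hH : C H) {A : Type} [CommRing A]
    (ρ : H →* GL (Fin 2) A) : C (Fib ρ) := by
  classical
  refine Pool.Agent.Y430.SS.of_directed hC.base (Fib ρ) (Finset A)
    (fun i j => ⟨i ∪ j, Finset.subset_union_left, Finset.subset_union_right⟩)
    (fun s => KS ρ (Subring.closure (s : Set A)))
    (fun s t h => KS_mono ρ (Subring.closure_mono (by exact_mod_cast h))) ?_ ?_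
  · intro p
    let s : Finset A := Finset.univ.biUnion fun q : Fin 2 × Fin 2 =>
      ((pG ρ p).val q.1 q.2).coeffs ∪ ((pG ρ p)⁻¹.val q.1 q.2).coeffs
    have hs : ∀ a ∈ s, a ∈ Subring.closure (s : Set A) := fun a ha =>
      Subring.subset_closure (Finset.mem_coe.2 ha)
    have key : ∀ (r : A[X]), r.coeffs ⊆ s → ∀ m, r.coeff m ∈ Subring.closure (s : Set A) := by
      intro r hr m
      by_cases h0 : r.coeff m = 0
      · rw [h0]
        exact zero_mem _
      · exact hs _ (hr (Polynomial.coeff_mem_coeffs h0))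
    refine ⟨s, gl_mem_range _ _ (fun i j => key _ ?_) (fun i j => key _ ?_)⟩
    · intro a ha
      exact Finset.mem_biUnion.2 ⟨(i, j), Finset.mem_univ _, Finset.mem_union_left _ ha⟩
    · intro a ha
      exact Finset.mem_biUnion.2 ⟨(i, j), Finset.mem_univ _, Finset.mem_union_right _ ha⟩
  · intro s
    have := is_noetherian_subring_closure (s : Set A) s.finite_toSet
    exact KS_mem hC hF hS hH ρ _

end fib

end Pool.Agent.K7.H87.FJ2
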