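import Mathlib

/-!
# The congruence kernel of `GL₂(F[t]) → GL₂(F)` is a free product

`F` is a field.  The kernel of the reduction `GL₂(F[t]) → GL₂(F)`, `t ↦ 0`, is the free product of
the groups of the transvections `T v f`, `f ∈ t F[t]`, one for each line `F v` of `F²`.
-/

set_option autoImplicit false

namespace Pool.Agent.K7.H87.FJ2

open Polynomial Matrix

variable {F : Type} [Field F]

/-- the transvection `w ↦ w + f det(v, w) v` -/
def T {R : Type} [CommRing R] (v : Fin 2 → R) (f : R) : Matrix (Fin 2) (Fin 2) R :=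
  !![1 - f * (v 0 * v 1), f * (v 0 * v 0); - (f * (v 1 * v 1)), 1 + f * (v 0 * v 1)]

section T

variable {R : Type} [CommRing R]

theorem T_zero (v : Fin 2 → R) : T v 0 = 1 := by
  ext i j
  fin_cases i <;> fin_cases j <;> simp [T]

theorem T_mul (v : Fin 2 → R) (f g : R) : T v f * T v g = T v (f + g) := by
  ext i j
  fin_cases i <;> fin_cases j <;> simp [T, Matrix.mul_apply, Fin.sum_univ_two] <;> ring

theorem T_smul (v : Fin 2 → R) (a f : R) : T (a • v) f = T v (a * a * f) := by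
  ext i j
  fin_cases i <;> fin_cases j <;> simp [T] <;> ring

theorem T_conj (g : Matrix (Fin 2) (Fin 2) R) (v : Fin 2 → R) (f : R) :
    g * T v (g.det * f) = T (g *ᵥ v) f * g := by
  ext i j
  fin_cases i <;> fin_cases j <;>
    simp [T, Matrix.mul_apply, Fin.sum_univ_two, Matrix.mulVec, dotProduct, Matrix.det_fin_two] <;>
    ring

theorem T_mulVec (v w : Fin 2 → R) (f : R) (i : Fin 2) :
    (T v f *ᵥ w) i = w i + f * (v 0 * w 1 - v 1 * w 0) * v i := by
  fin_cases i <;> simp [T, Matrix.mulVec, dotProduct, Fin.sum_univ_two] <;> ring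

/-- the transvection as an invertible matrix -/
def TU (v : Fin 2 → R) (f : R) : GL (Fin 2) R :=
  ⟨T v f, T v (-f), by rw [T_mul, add_neg_cancel, T_zero], by rw [T_mul, neg_add_cancel, T_zero]⟩

@[simp] theorem TU_val (v : Fin 2 → R) (f : R) : (TU v f).val = T v f := rfl

theorem TU_mul (v : Fin 2 → R) (f g : R) : TU v f * TU v g = TU v (f + g) :=
  Units.ext (T_mul v f g)

theorem TU_zero (v : Fin 2 → R) : TU v 0 = 1 := Units.ext (T_zero v)

theorem TU_inv (v : Fin 2 → R) (f : R) : (TU v f)⁻¹ = TU v (-f) := by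
  rw [inv_eq_iff_mul_eq_one, TU_mul, add_neg_cancel, TU_zero]

theorem TU_conj (g : GL (Fin 2) R) (v : Fin 2 → R) (f : R) :
    g * TU v (g.val.det * f) * g⁻¹ = TU (g.val *ᵥ v) f := by
  rw [mul_inv_eq_iff_eq_mul]
  exact Units.ext (T_conj g.val v f)

theorem TU_comm (v : Fin 2 → R) (f g : R) : TU v f * TU v g = TU v g * TU v f := by
  rw [TU_mul, TU_mul, add_comm]

end T

/-- representatives of the lines of `F²` -/
def vec : Option F → Fin 2 → F
  | none => ![1, 0]
  | some a => ![a, 1]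

theorem vec_ne (x : Option F) : vec x ≠ 0 := by
  intro h
  cases x with
  | none => simpa [vec] using congrFun h 0
  | some a => simpa [vec] using congrFun h 1

theorem vec_par {x y : Option F} (h : vec x 0 * vec y 1 = vec x 1 * vec y 0) : x = y := by
  cases x <;> cases y <;> simp_all [vec]

theorem exists_vec {v : Fin 2 → F} (hv : v ≠ 0) : ∃ (x : Option F) (a : F), a ≠ 0 ∧ v = a • vec x := by
  by_cases h : v 1 = 0
  · refine ⟨none, v 0, ?_, ?_⟩
    · intro h0
      apply hv
      funext i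
      fin_cases i <;> simp [h, h0]
    · funext i
      fin_cases i <;> simp [vec, h]
  · refine ⟨some (v 0 / v 1), v 1, h, ?_⟩
    funext i
    fin_cases i
    · simp [vec]
      field_simp
    · simp [vec]

/-- the constant vector in `F[t]²` -/
noncomputable def cvec (v : Fin 2 → F) : Fin 2 → F[X] := fun i => C (v i)

/-- the leading vector of `w` is parallel to `v` -/
def Ld (v : Fin 2 → F) (w : Fin 2 → F[X]) : Prop :=
  ∃ n : ℕ, (∀ i, (w i).natDegree ≤ n) ∧ (∃ i, (w i).coeff n ≠ 0) ∧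
    v 0 * (w 1).coeff n = v 1 * (w 0).coeff n

theorem par_trans {u v c : Fin 2 → F} (hc : ∃ i, c i ≠ 0) (h1 : u 0 * c 1 = u 1 * c 0)
    (h2 : v 0 * c 1 = v 1 * c 0) : u 0 * v 1 = u 1 * v 0 := by
  obtain ⟨i, hi⟩ := hc
  fin_cases i
  · have h3 : (u 0 * v 1 - u 1 * v 0) * c 0 = 0 := by linear_combination u 0 * h2 * (-1) + v 0 * h1
    rcases mul_eq_zero.1 h3 with h | h
    · exact sub_eq_zero.1 h
    · exact absurd h hi
  · have h3 : (u 0 * v 1 - u 1 * v 0) * c 1 = 0 := by linear_combination v 1 * h1 - u 1 * h2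
    rcases mul_eq_zero.1 h3 with h | h
    · exact sub_eq_zero.1 h
    · exact absurd h hi

theorem Ld_unique {x y : Option F} {w : Fin 2 → F[X]} (hx : Ld (vec x) w) (hy : Ld (vec y) w) :
    x = y := by
  obtain ⟨n, h1, ⟨i, hi⟩, h3⟩ := hx
  obtain ⟨m, k1, ⟨j, hj⟩, k3⟩ := hy
  have hnm : n = m := by
    apply le_antisymm
    · exact (le_natDegree_of_ne_zero hi).trans (k1 i)
    · exact (le_natDegree_of_ne_zero hj).trans (h1 j)
  subst hnm
  exact vec_par (par_trans (c := fun i => (w i).coeff n) ⟨i, hi⟩ h3 k3)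

/-- ping-pong -/
theorem Ld_move {x y : Option F} (hxy : x ≠ y) {w : Fin 2 → F[X]} (hy : Ld (vec y) w)
    {f : F[X]} (hf : X ∣ f) (hf0 : f ≠ 0) : Ld (vec x) (T (cvec (vec x)) f *ᵥ w) := by
  obtain ⟨n, h1, h2, h3⟩ := hy
  set d : F := vec x 0 * (w 1).coeff n - vec x 1 * (w 0).coeff n with hd
  have hd0 : d ≠ 0 := by
    intro h
    exact hxy (vec_par (par_trans (c := fun i => (w i).coeff n) h2 (sub_eq_zero.1 h) h3))
  set δ : F[X] := C (vec x 0) * w 1 - C (vec x 1) * w 0 with hδ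
  have hδn : δ.natDegree ≤ n := by
    refine (natDegree_sub_le _ _).trans (max_le ?_ ?_)
    · exact (natDegree_C_mul_le _ _).trans (h1 1)
    · exact (natDegree_C_mul_le _ _).trans (h1 0)
  have hδc : δ.coeff n = d := by
    rw [hδ, coeff_sub, coeff_C_mul, coeff_C_mul]
  have hm : 1 ≤ f.natDegree := by
    obtain ⟨g, rfl⟩ := hf
    have hg : g ≠ 0 := right_ne_zero_of_mul hf0
    rw [natDegree_X_mul hg]
    omega
  have key : ∀ i, (T (cvec (vec x)) f *ᵥ w) i = w i + f * δ * C (vec x i) := by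
    intro i
    rw [T_mulVec]
    rfl
  have hfd : (f * δ).natDegree ≤ f.natDegree + n := natDegree_mul_le.trans (by omega)
  have hfc : (f * δ).coeff (f.natDegree + n) = f.leadingCoeff * d := by
    rw [← hδc]
    exact coeff_mul_add_eq_of_natDegree_le le_rfl hδn
  have hco : ∀ i, ((T (cvec (vec x)) f *ᵥ w) i).coeff (f.natDegree + n) =
      f.leadingCoeff * d * vec x i := by
    intro i
    rw [key, coeff_add, coeff_mul_C, hfc, coeff_eq_zero_of_natDegree_lt, zero_add]
    have := h1 i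
    omega
  refine ⟨f.natDegree + n, ?_, ?_, ?_⟩
  · intro i
    rw [key]
    refine (natDegree_add_le _ _).trans (max_le ((h1 i).trans (by omega)) ?_)
    exact (natDegree_mul_C_le _ _).trans hfd
  · obtain ⟨i, hi⟩ := Function.ne_iff.1 (vec_ne x)
    refine ⟨i, ?_⟩
    rw [hco]
    exact mul_ne_zero (mul_ne_zero (leadingCoeff_ne_zero.2 hf0) hd0) hi
  · rw [hco, hco]
    ring

/-- the action on `F[t]²` -/
@[reducible] noncomputable def act {G : Type} [Group G] (φ : G →* GL (Fin 2) F[X]) :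
    MulAction G (Fin 2 → F[X]) where
  smul g w := (φ g).val *ᵥ w
  one_smul w := by
    show (φ 1).val *ᵥ w = w
    rw [map_one, Units.val_one, Matrix.one_mulVec]
  mul_smul g h w := by
    show (φ (g * h)).val *ᵥ w = (φ g).val *ᵥ ((φ h).val *ᵥ w)
    rw [map_mul, Units.val_mul, Matrix.mulVec_mulVec]

open Cardinal in
/-- the subgroups of transvections generate their free product -/
theorem lift_inj {G : Type} [Group G] (φ : G →* GL (Fin 2) F[X]) (A : Option F → Subgroup G)
    (h : ∀ x, ∀ a ∈ A x, a ≠ 1 → ∃ f : F[X], X ∣ f ∧ f ≠ 0 ∧ (φ a).val = T (cvec (vec x)) f) :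
    Function.Injective (Monoid.CoprodI.lift fun i => (A i).subtype) := by
  let _ : MulAction G (Fin 2 → F[X]) := act φ
  refine Monoid.CoprodI.lift_injective_of_ping_pong (fun i => (A i).subtype) ?_
    (fun x => {w | Ld (vec x) w}) ?_ ?_ ?_
  · left
    have h1 : Function.Injective (fun i : Fin 3 => (![none, some 0, some 1] i : Option F)) := by
      intro i j hij
      fin_cases i <;> fin_cases j <;> simp_all
    have h2 := Cardinal.mk_le_of_injective h1
    simpa using h2
  · intro x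
    refine ⟨cvec (vec x), 0, ?_, ?_, ?_⟩
    · intro i
      simp [cvec]
    · obtain ⟨i, hi⟩ := Function.ne_iff.1 (vec_ne x)
      exact ⟨i, by simpa [cvec] using hi⟩
    · simp [cvec]
      ring
  · intro x y hxy
    rw [Function.onFun, Set.disjoint_left]
    intro w hx hy
    exact hxy (Ld_unique hx hy)
  · intro x y hxy a ha
    rintro _ ⟨w, hw, rfl⟩
    have ha' : (a : G) ≠ 1 := fun h1 => ha (Subtype.ext h1)
    obtain ⟨f, hf, hf0, hfa⟩ := h x a a.2 ha'
    show Ld (vec x) ((φ a).val *ᵥ w)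
    rw [hfa]
    exact Ld_move hxy hw hf hf0

/-- the constant matrices -/
noncomputable def cst {R : Type} [CommRing R] : GL (Fin 2) R →* GL (Fin 2) R[X] :=
  GeneralLinearGroup.map (C : R →+* R[X])

/-- reduction `t ↦ 0` -/
noncomputable def red {R : Type} [CommRing R] : GL (Fin 2) R[X] →* GL (Fin 2) R :=
  GeneralLinearGroup.map (Polynomial.evalRingHom 0)

theorem red_cst {R : Type} [CommRing R] (g : GL (Fin 2) R) : red (cst g) = g := by
  apply Units.ext
  ext i j
  simp [red, cst, GeneralLinearGroup.map]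

/-- the group generated by the transvections -/
noncomputable def Mg (F : Type) [Field F] : Subgroup (GL (Fin 2) F[X]) :=
  Subgroup.closure {g | ∃ (x : Option F) (f : F[X]), X ∣ f ∧ g = TU (cvec (vec x)) f}

theorem TU_mem {v : Fin 2 → F} (hv : v ≠ 0) {f : F[X]} (hf : X ∣ f) : TU (cvec v) f ∈ Mg F := by
  obtain ⟨x, a, ha, rfl⟩ := exists_vec hv
  apply Subgroup.subset_closure
  refine ⟨x, C a * C a * f, dvd_mul_of_dvd_right hf _, ?_⟩
  apply Units.ext
  rw [TU_val, TU_val, ← T_smul]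
  congr 1
  funext i
  simp [cvec]

theorem Mg_conj (g : GL (Fin 2) F) {m : GL (Fin 2) F[X]} (hm : m ∈ Mg F) :
    cst g * m * (cst g)⁻¹ ∈ Mg F := by
  have h1 : Mg F ≤ (Mg F).comap (MulAut.conj (cst g)).toMonoidHom := by
    rw [Mg, Subgroup.closure_le]
    rintro _ ⟨x, f, hf, rfl⟩
    show cst g * TU (cvec (vec x)) f * (cst g)⁻¹ ∈ Mg F
    have hdet : (cst g).val.det = C g.val.det := by
      rw [show (cst g).val = (C : F →+* F[X]).mapMatrix g.val from rfl, ← RingHom.map_det]
    have hd0 : g.val.det ≠ 0 := (Matrix.isUnit_iff_isUnit_det _).1 g.isUnit |>.ne_zero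
    have h2 := TU_conj (cst g) (cvec (vec x)) (C (g.val.det)⁻¹ * f)
    rw [hdet, ← mul_assoc, ← C_mul, mul_inv_cancel₀ hd0, C_1, one_mul] at h2
    rw [h2]
    have h3 : (cst g).val *ᵥ cvec (vec x) = cvec (g.val *ᵥ vec x) := by
      funext i
      fin_cases i <;>
        simp [cst, cvec, GeneralLinearGroup.map, Matrix.mulVec, dotProduct, Fin.sum_univ_two]
    rw [h3]
    refine TU_mem ?_ (dvd_mul_of_dvd_right hf _)
    intro h4
    apply vec_ne x
    have h5 : (g⁻¹).val *ᵥ (g.val *ᵥ vec x) = vec x := by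
      rw [Matrix.mulVec_mulVec, ← Units.val_mul, inv_mul_cancel, Units.val_one, Matrix.one_mulVec]
    rw [← h5, h4, Matrix.mulVec_zero]
  exact h1 hm

/-- `M GL₂(F)` is a subgroup -/
noncomputable def MG (F : Type) [Field F] : Subgroup (GL (Fin 2) F[X]) where
  carrier := {g | ∃ m ∈ Mg F, ∃ h : GL (Fin 2) F, g = m * cst h}
  one_mem' := ⟨1, one_mem _, 1, by simp⟩
  mul_mem' := by
    rintro _ _ ⟨m, hm, h, rfl⟩ ⟨m', hm', h', rfl⟩
    refine ⟨m * (cst h * m' * (cst h)⁻¹), mul_mem hm (Mg_conj h hm'), h * h', ?_⟩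
    rw [map_mul]
    group
  inv_mem' := by
    rintro _ ⟨m, hm, h, rfl⟩
    refine ⟨cst h⁻¹ * m⁻¹ * (cst h⁻¹)⁻¹, Mg_conj _ (inv_mem hm), h⁻¹, ?_⟩
    rw [map_inv]
    group

theorem Mg_le : Mg F ≤ MG F := fun m hm => ⟨m, hm, 1, by simp⟩

theorem cst_mem (h : GL (Fin 2) F) : cst h ∈ MG F := ⟨1, one_mem _, h, by simp⟩

end Pool.Agent.K7.H87.FJ2
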