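import Pool.Agent.K7.H87.FJ2.Fld

/-!
# Generation of the congruence kernel by transvections
-/

set_option autoImplicit false

namespace Pool.Agent.K7.H87.FJ2

open Polynomial Matrix

variable {F : Type} [Field F]

theorem exists_norm {c : Fin 2 → F} (hc : c ≠ 0) :
    ∃ h : GL (Fin 2) F, h.val *ᵥ c = ![1, 0] := by
  by_cases h0 : c 0 = 0
  · have h1 : c 1 ≠ 0 := by
      intro h1
      apply hc
      funext i
      fin_cases i <;> simp [h0, h1]
    refine ⟨GeneralLinearGroup.mkOfDetNeZero !![0, (c 1)⁻¹; 1, 0] ?_, ?_⟩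
    · simp [Matrix.det_fin_two, h1]
    · funext i
      fin_cases i <;>
        simp [GeneralLinearGroup.mkOfDetNeZero, Matrix.mulVec, dotProduct, Fin.sum_univ_two, h0, h1]
  · refine ⟨GeneralLinearGroup.mkOfDetNeZero !![(c 0)⁻¹, 0; - (c 1 * (c 0)⁻¹), 1] ?_, ?_⟩
    · simp [Matrix.det_fin_two, h0]
    · funext i
      fin_cases i <;>
        simp [GeneralLinearGroup.mkOfDetNeZero, Matrix.mulVec, dotProduct, Fin.sum_univ_two, h0]

theorem det_unit (g : GL (Fin 2) F[X]) : IsUnit (g.val 0 0 * g.val 1 1 - g.val 0 1 * g.val 1 0) := by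
  rw [← Matrix.det_fin_two]
  exact (Matrix.isUnit_iff_isUnit_det _).1 g.isUnit

/-- upper triangular matrices with first column `(1, 0)` -/
theorem col_mem {g : GL (Fin 2) F[X]} (h0 : g.val 0 0 = 1) (h1 : g.val 1 0 = 0) : g ∈ MG F := by
  have hu := det_unit g
  rw [h0, h1, one_mul, mul_zero, sub_zero] at hu
  obtain ⟨c, hc, hcu⟩ := Polynomial.isUnit_iff.1 hu
  have hc0 : c ≠ 0 := hc.ne_zero
  obtain ⟨k, hk⟩ : ∃ k : GL (Fin 2) F, k.val = !![1, 0; 0, c⁻¹] :=
    ⟨GeneralLinearGroup.mkOfDetNeZero !![1, 0; 0, c⁻¹] (by simp [Matrix.det_fin_two, hc0]), rfl⟩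
  set p : F[X] := g.val 0 1 * C c⁻¹ with hp
  have h2 : g * cst k = TU (cvec (vec (none : Option F))) p := by
    apply Units.ext
    rw [Units.val_mul, show (cst k).val = (C : F →+* F[X]).mapMatrix k.val from rfl, hk, TU_val]
    ext i j
    have : C c * C c⁻¹ = (1 : F[X]) := by rw [← C_mul, mul_inv_cancel₀ hc0, C_1]
    fin_cases i <;> fin_cases j <;>
      simp [Matrix.mul_apply, Fin.sum_univ_two, T, cvec, vec, h0, h1, ← hcu, hp, this]
  have h3 : TU (cvec (vec (none : Option F))) p ∈ MG F := by
    have h4 : p = X * p.divX + C (p.coeff 0) := by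
      rw [mul_comm]
      exact (Polynomial.divX_mul_X_add p).symm
    rw [h4, ← TU_mul]
    refine mul_mem (Mg_le (TU_mem (vec_ne none) (dvd_mul_right _ _))) ?_
    have h5 : TU (cvec (vec (none : Option F))) (C (p.coeff 0)) = cst (TU (vec none) (p.coeff 0)) := by
      apply Units.ext
      rw [TU_val, show (cst (TU (vec none) (p.coeff 0))).val =
        (C : F →+* F[X]).mapMatrix (T (vec none) (p.coeff 0)) from rfl]
      ext i j
      fin_cases i <;> fin_cases j <;> simp [T, cvec, vec]
    rw [h5]
    exact cst_mem _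
  rw [← h2] at h3
  have h6 := mul_mem h3 (inv_mem (cst_mem k))
  rwa [mul_inv_cancel_right] at h6

theorem cst_mul_col (h : GL (Fin 2) F) (g : GL (Fin 2) F[X]) (i : Fin 2) :
    (cst h * g).val i 0 = C (h.val i 0) * g.val 0 0 + C (h.val i 1) * g.val 1 0 := by
  rw [Units.val_mul, show (cst h).val = (C : F →+* F[X]).mapMatrix h.val from rfl]
  simp [Matrix.mul_apply, Fin.sum_univ_two]

theorem deg_drop {p : F[X]} {n : ℕ} (h : p.natDegree ≤ n + 1) (hc : p.coeff (n + 1) = 0) :
    p.natDegree ≤ n := by
  rw [natDegree_le_iff_coeff_eq_zero]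
  intro N hN
  rcases Nat.lt_or_ge (n + 1) N with h1 | h1
  · exact coeff_eq_zero_of_natDegree_lt (h.trans_lt h1)
  · have : N = n + 1 := by omega
    rw [this, hc]

theorem all_mem : ∀ (n : ℕ) (g : GL (Fin 2) F[X]), (∀ i, (g.val i 0).natDegree ≤ n) → g ∈ MG F := by
  intro n
  induction n with
  | zero =>
    intro g hg
    set c : Fin 2 → F := fun i => (g.val i 0).coeff 0 with hc
    have hgc : ∀ i, g.val i 0 = C (c i) := fun i =>
      Polynomial.eq_C_of_natDegree_le_zero (hg i)
    have hc0 : c ≠ 0 := by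
      intro h
      have hu := det_unit g
      rw [hgc 0, hgc 1, h] at hu
      simp at hu
    obtain ⟨h, hh⟩ := exists_norm hc0
    have e0 := congrFun hh 0
    have e1 := congrFun hh 1
    simp only [Matrix.mulVec, dotProduct, Fin.sum_univ_two, Matrix.cons_val_zero,
      Matrix.cons_val_one] at e0 e1
    have h1 : cst h * g ∈ MG F := by
      apply col_mem
      · rw [cst_mul_col, hgc 0, hgc 1, ← C_mul, ← C_mul, ← C_add, e0, C_1]
      · rw [cst_mul_col, hgc 0, hgc 1, ← C_mul, ← C_mul, ← C_add, e1, C_0]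
    have h2 := mul_mem (inv_mem (cst_mem h)) h1
    rwa [inv_mul_cancel_left] at h2
  | succ n ih =>
    intro g hg
    set c : Fin 2 → F := fun i => (g.val i 0).coeff (n + 1) with hc
    by_cases hc0 : c = 0
    · exact ih g fun i => deg_drop (hg i) (congrFun hc0 i)
    obtain ⟨h, hh⟩ := exists_norm hc0
    have e0 := congrFun hh 0
    have e1 := congrFun hh 1
    simp only [Matrix.mulVec, dotProduct, Fin.sum_univ_two, Matrix.cons_val_zero,
      Matrix.cons_val_one] at e0 e1
    suffices h1 : cst h * g ∈ MG F by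
      have h2 := mul_mem (inv_mem (cst_mem h)) h1
      rwa [inv_mul_cancel_left] at h2
    set g' := cst h * g with hg'
    have hd : ∀ i, (g'.val i 0).natDegree ≤ n + 1 := by
      intro i
      rw [hg', cst_mul_col]
      refine (natDegree_add_le _ _).trans (max_le ?_ ?_)
      · exact (natDegree_C_mul_le _ _).trans (hg 0)
      · exact (natDegree_C_mul_le _ _).trans (hg 1)
    have hco : ∀ i, (g'.val i 0).coeff (n + 1) = h.val i 0 * c 0 + h.val i 1 * c 1 := by
      intro i
      rw [hg', cst_mul_col, coeff_add, coeff_C_mul, coeff_C_mul]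
    have hc00 : (g'.val 0 0).coeff (n + 1) = 1 := by rw [hco, e0]
    have hc10 : (g'.val 1 0).coeff (n + 1) = 0 := by rw [hco, e1]
    have hd1 : (g'.val 1 0).natDegree ≤ n := deg_drop (hd 1) hc10
    by_cases hz : g'.val 1 0 = 0
    · exfalso
      have hu := det_unit g'
      rw [hz, mul_zero, sub_zero] at hu
      have hu2 := isUnit_of_mul_isUnit_left hu
      have h3 := natDegree_eq_zero_of_isUnit hu2
      have h4 : (g'.val 0 0).coeff (n + 1) = 0 := coeff_eq_zero_of_natDegree_lt (by omega)
      rw [hc00] at h4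
      exact one_ne_zero h4
    · set b := (g'.val 1 0).leadingCoeff with hb
      have hb0 : b ≠ 0 := leadingCoeff_ne_zero.2 hz
      set e := (g'.val 1 0).natDegree with he
      set f : F[X] := C b⁻¹ * X ^ (n + 1 - e) with hf
      have hXf : X ∣ f := dvd_mul_of_dvd_right (dvd_pow_self X (by omega)) _
      have hk : TU (cvec (vec (none : Option F))) (-f) ∈ MG F :=
        Mg_le (TU_mem (vec_ne none) (hXf.neg_right))
      suffices h1 : TU (cvec (vec (none : Option F))) (-f) * g' ∈ MG F by
        have h2 := mul_mem (inv_mem hk) h1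
        rwa [inv_mul_cancel_left] at h2
      have q0 : (TU (cvec (vec (none : Option F))) (-f) * g').val 0 0 =
          g'.val 0 0 - f * g'.val 1 0 := by
        rw [Units.val_mul, TU_val]
        simp [Matrix.mul_apply, Fin.sum_univ_two, T, cvec, vec]
        ring
      have q1 : (TU (cvec (vec (none : Option F))) (-f) * g').val 1 0 = g'.val 1 0 := by
        rw [Units.val_mul, TU_val]
        simp [Matrix.mul_apply, Fin.sum_univ_two, T, cvec, vec]
      have hfd : f.natDegree ≤ n + 1 - e := by
        rw [hf]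
        exact natDegree_C_mul_X_pow_le _ _
      have hfm : (f * g'.val 1 0).natDegree ≤ n + 1 := by
        refine natDegree_mul_le.trans ?_
        omega
      apply ih
      intro i
      fin_cases i
      · show ((TU (cvec (vec (none : Option F))) (-f) * g').val 0 0).natDegree ≤ n
        rw [q0]
        apply deg_drop
        · exact (natDegree_sub_le _ _).trans (max_le (hd 0) hfm)
        · have h5 : (f * g'.val 1 0).coeff (n + 1) = 1 := by
            have h6 : n + 1 = (n + 1 - e) + e := by omega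
            rw [h6, coeff_mul_add_eq_of_natDegree_le hfd le_rfl]
            rw [hf, coeff_C_mul_X_pow, if_pos rfl]
            exact inv_mul_cancel₀ hb0
          rw [coeff_sub, hc00, h5, sub_self]
      · show ((TU (cvec (vec (none : Option F))) (-f) * g').val 1 0).natDegree ≤ n
        rw [q1]
        exact hd1

theorem MG_top (g : GL (Fin 2) F[X]) : g ∈ MG F :=
  all_mem (max (g.val 0 0).natDegree (g.val 1 0).natDegree) g fun i => by
    fin_cases i
    · exact le_max_left _ _
    · exact le_max_right _ _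

theorem red_Mg {m : GL (Fin 2) F[X]} (hm : m ∈ Mg F) : red m = 1 := by
  have h1 : Mg F ≤ (red : GL (Fin 2) F[X] →* GL (Fin 2) F).ker := by
    rw [Mg, Subgroup.closure_le]
    rintro _ ⟨x, f, hf, rfl⟩
    show red _ = 1
    obtain ⟨q, rfl⟩ := hf
    apply Units.ext
    rw [show (red (TU (cvec (vec x)) (X * q))).val =
      (Polynomial.evalRingHom 0).mapMatrix (T (cvec (vec x)) (X * q)) from rfl]
    ext i j
    fin_cases i <;> fin_cases j <;> simp [T]
  exact h1 hm

/-- the congruence kernel is generated by the transvections -/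
theorem ker_eq (g : GL (Fin 2) F[X]) : red g = 1 ↔ g ∈ Mg F := by
  refine ⟨fun h => ?_, red_Mg⟩
  obtain ⟨m, hm, k, rfl⟩ := MG_top g
  rw [map_mul, red_Mg hm, one_mul, red_cst] at h
  rw [h, map_one, mul_one]
  exact hm

end Pool.Agent.K7.H87.FJ2
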